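import Pool.Agent.H.MP_69260a_co.A

namespace Pool.Agent.H.MP_c36447_co

open Finset SimpleGraph Matrix Pool.Agent.H.MP_69260a_co

/-- a matrix with an orthogonal low-rank expansion has an explicit characteristic polynomial -/
lemma diagp {V ι : Type} [Fintype V] [DecidableEq V] [Fintype ι] [DecidableEq ι] (D : Matrix V V ℝ)
    (A : V → ι → ℝ) (c l : ι → ℝ) (hD : ∀ x y, D x y = ∑ k, c k * A x k * A y k)
    (ho : ∀ k j, c k * ∑ x, A x k * A x j = if k = j then l k else 0) :
    Polynomial.X ^ Fintype.card ι * D.charpoly =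
      Polynomial.X ^ Fintype.card V * ∏ k, (Polynomial.X - Polynomial.C (l k)) := by
  let P : Matrix V ι ℝ := Matrix.of A
  let Q : Matrix ι V ℝ := Matrix.of fun k y => c k * A y k
  have h1 : D = P * Q := by
    ext x y
    simp only [hD, mul_apply, P, Q, of_apply]
    exact sum_congr rfl fun k _ => by ring
  have h2 : Q * P = diagonal l := by
    ext k j
    simp only [mul_apply, P, Q, of_apply, diagonal_apply, ← ho, mul_sum]
    exact sum_congr rfl fun k _ => by ring
  rw [h1, charpoly_mul_comm', h2, charpoly_diagonal]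

lemma flip0 {V : Type} [Fintype V] (σ : V → V) (hσ : Function.Involutive σ) (f : V → ℤ)
    (h : ∀ v, f (σ v) = - f v) : ∑ v, f v = 0 := by
  have := Equiv.sum_comp hσ.toPerm f
  simp only [Function.Involutive.coe_toPerm, h, sum_neg_distrib] at this
  omega

/-- the graph of pairs at distance one -/
def gph {V : Type} (δ : V → V → ℕ) : SimpleGraph V := SimpleGraph.fromRel fun x y => δ x y = 1

structure Emb {V ι : Type} [Fintype V] [Fintype ι] [DecidableEq ι] (δ : V → V → ℕ)
    (a : V → ι → ℤ) : Prop where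
  pm : ∀ x k, a x k = 1 ∨ a x k = -1
  ds : ∀ x y, 8 * (δ x y : ℤ) = ∑ k, (1 - a x k * a y k)
  m1 : ∀ k, ∑ x, a x k = 0
  m2 : ∀ k j, k ≠ j → ∑ x, a x k * a x j = 0

lemma Emb.sq {V ι : Type} [Fintype V] [Fintype ι] [DecidableEq ι] {δ : V → V → ℕ}
    {a : V → ι → ℤ} (h : Emb δ a) (x : V) (k : ι) : a x k * a x k = 1 := by
  rcases h.pm x k with e | e <;> simp [e]

lemma Emb.cert {V ι : Type} [Fintype V] [Fintype ι] [DecidableEq ι] {δ : V → V → ℕ}
    {a : V → ι → ℤ} (h : Emb δ a)
    (hex : ∀ x y, y ≠ x → ∃ z, δ z y = 1 ∧ δ x z + 1 = δ x y) : Cert (gph δ) δ := by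
  have h0 : ∀ x, δ x x = 0 := fun x => by
    have := h.ds x x
    simp only [h.sq, sub_self, sum_const_zero] at this
    omega
  have hs : ∀ x y, δ x y = δ y x := fun x y => by
    have h1 := h.ds x y
    have h2 := h.ds y x
    simp only [mul_comm (a y _)] at h2
    omega
  refine ⟨h0, fun u v w hadj => ?_, fun u v ne => ?_⟩
  · have e : δ v w = 1 := by
      rcases ((fromRel_adj _ _ _).1 hadj).2 with e | e
      · exact e
      · rw [hs]; exact e
    have : ∑ k, (1 - a u k * a w k) ≤ ∑ k, (1 - a u k * a v k) + ∑ k, (1 - a v k * a w k) := by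
      rw [← sum_add_distrib]
      refine sum_le_sum fun k _ => ?_
      rcases h.pm u k with p | p <;> rcases h.pm v k with q | q <;> rcases h.pm w k with r | r <;>
        simp [p, q, r]
    rw [← h.ds, ← h.ds, ← h.ds] at this
    omega
  · obtain ⟨z, h1, h2⟩ := hex u v ne
    refine ⟨z, (fromRel_adj _ _ _).2 ⟨?_, Or.inl h1⟩, h2⟩
    rintro rfl
    rw [h0] at h1; omega

lemma Emb.prod {V ι W κ : Type} [Fintype V] [Fintype ι] [DecidableEq ι] [Fintype W] [Fintype κ]
    [DecidableEq κ] {δ : V → V → ℕ} {a : V → ι → ℤ} {ε : W → W → ℕ} {b : W → κ → ℤ}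
    (h : Emb δ a) (k : Emb ε b) :
    Emb (fun x y : V × W => δ x.1 y.1 + ε x.2 y.2)
      (fun (x : V × W) (i : ι ⊕ κ) => Sum.elim (a x.1) (b x.2) i) := by
  refine ⟨?_, ?_, ?_, ?_⟩
  · rintro x (i | i)
    · exact h.pm _ _
    · exact k.pm _ _
  · intro x y
    rw [Fintype.sum_sum_type]
    simp only [Sum.elim_inl, Sum.elim_inr, ← h.ds, ← k.ds]
    push_cast; ring
  · rintro (i | i)
    · rw [Fintype.sum_prod_type_right]; simp [h.m1]
    · rw [Fintype.sum_prod_type]; simp [k.m1]
  · rintro (i | i) (j | j) ne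
    · rw [Fintype.sum_prod_type_right]
      simp [h.m2 i j (fun e => ne (congrArg _ e))]
    · rw [Fintype.sum_prod_type]; simp [← mul_sum, k.m1]
    · rw [Fintype.sum_prod_type]; simp [← sum_mul, k.m1]
    · rw [Fintype.sum_prod_type]
      simp [k.m2 i j (fun e => ne (congrArg _ e))]

noncomputable def qq (m N : ℕ) : Polynomial ℝ :=
  (Polynomial.X - Polynomial.C (m * N / 8 : ℝ)) * (Polynomial.X - Polynomial.C (-(N / 8) : ℝ)) ^ m

lemma Emb.spec {V ι : Type} [Fintype V] [DecidableEq V] [Fintype ι] [DecidableEq ι]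
    {G : SimpleGraph V} {δ : V → V → ℕ} {a : V → ι → ℤ} (h : Emb δ a) (c : Cert G δ) :
    Polynomial.X ^ (Fintype.card ι + 1) * (distMat G).charpoly =
      Polynomial.X ^ Fintype.card V * qq (Fintype.card ι) (Fintype.card V) := by
  have := diagp (ι := Option ι) (distMat G) (fun x k => k.elim 1 (fun k => (a x k : ℝ)))
    (fun k => k.elim (Fintype.card ι / 8) (fun _ => -(1 / 8)))
    (fun k => k.elim (Fintype.card ι * Fintype.card V / 8) (fun _ => -(Fintype.card V / 8))) ?_ ?_
  · rw [Fintype.card_option, Fintype.prod_option] at this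
    simpa [qq] using this
  · intro x y
    have e : 8 * (δ x y : ℝ) = ∑ k, (1 - (a x k : ℝ) * a y k) := by exact_mod_cast h.ds x y
    simp only [distMat, of_apply, (c.dist _ _).2, Fintype.sum_option, Option.elim, mul_assoc,
      ← mul_sum]
    rw [sum_sub_distrib] at e
    simp only [sum_const, card_univ, nsmul_eq_mul, mul_one] at e
    linarith
  · rintro (_ | k) (_ | j)
    · simp; ring
    · have e : ∑ x, (a x j : ℝ) = 0 := by exact_mod_cast h.m1 j
      simp [e]
    · have e : ∑ x, (a x k : ℝ) = 0 := by exact_mod_cast h.m1 k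
      simp [e]
    · by_cases kj : k = j
      · subst kj
        have e : ∀ x, (a x k : ℝ) * a x k = 1 := fun x => by exact_mod_cast h.sq x k
        simp [e]; ring
      · have e : ∑ x, (a x k : ℝ) * a x j = 0 := by exact_mod_cast h.m2 k j kj
        simp [e, kj]

lemma cosp {V ι W κ : Type} [Fintype V] [DecidableEq V] [Fintype ι] [DecidableEq ι]
    [Fintype W] [DecidableEq W] [Fintype κ] [DecidableEq κ]
    {G : SimpleGraph V} {δ : V → V → ℕ} {a : V → ι → ℤ} (h : Emb δ a) (c : Cert G δ)
    {H : SimpleGraph W} {ε : W → W → ℕ} {b : W → κ → ℤ} (k : Emb ε b) (d : Cert H ε)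
    (e1 : Fintype.card V = Fintype.card W) (e2 : Fintype.card ι = Fintype.card κ) :
    (distMat G).charpoly = (distMat H).charpoly := by
  have h1 := h.spec c
  have h2 := k.spec d
  rw [e1, e2, ← h2] at h1
  exact (Polynomial.isRegular_X_pow _).left h1

end Pool.Agent.H.MP_c36447_co
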