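import Pool.Agent.H.MP_c36447_co.A

namespace Pool.Agent.H.MP_c36447_co

open Finset SimpleGraph Matrix Pool.Agent.H.MP_69260a_co

def hh (c k : Fin 8) : ℤ := ww c k
def xo (c t : Fin 8) : Fin 8 := Fin.ofNat 8 (c.val ^^^ t.val)

lemma xo_xo : ∀ c t, xo (xo c t) t = c := by decide +kernel
lemma xo_zero : ∀ c, xo c 0 = c := by decide +kernel
lemma hh_xo : ∀ c t k, hh (xo c t) k = hh c k * hh t k := by decide +kernel
lemma hh_pm : ∀ c k, hh c k = 1 ∨ hh c k = -1 := by decide +kernel
lemma hh_zero : ∀ k, hh 0 k = 1 := by decide +kernel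
lemma hh_s7 : ∀ c d, ∑ k : Fin 7, (1 - hh c k.succ * hh d k.succ) = if c = d then 0 else 8 := by
  decide +kernel
lemma hh_t1 : ∀ k : Fin 7, ∃ t, hh t k.succ = -1 := by decide +kernel
lemma hh_t2 : ∀ k j : Fin 7, k ≠ j → ∃ t, hh t k.succ * hh t j.succ = -1 := by decide +kernel
lemma hh_o : ∀ k j, k ≠ j → ∑ i, hh i k * hh i j = 0 := by decide +kernel
lemma hh_s8 : ∀ i j, ∀ e ∈ [(1 : ℤ), -1], ∀ f ∈ [(1 : ℤ), -1],
    ∑ k, (1 - e * hh i k * (f * hh j k)) = 8 * if i = j then (if e = f then 0 else 2) else 1 := by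
  decide +kernel

section
variable {κ : Type} [Fintype κ] [DecidableEq κ]

def aH (v : κ → Fin 8) (p : κ × Fin 7) : ℤ := hh (v p.1) p.2.succ
def sh (t v : κ → Fin 8) : κ → Fin 8 := fun b => xo (v b) (t b)

omit [Fintype κ] [DecidableEq κ] in
lemma sh_inv (t : κ → Fin 8) : Function.Involutive (sh t) := fun v => by
  ext b; simp [sh, xo_xo]

omit [Fintype κ] [DecidableEq κ] in
lemma aH_sh (t v : κ → Fin 8) (p : κ × Fin 7) : aH (sh t v) p = aH v p * aH t p := by
  simp [aH, sh, hh_xo]

lemma embH : Emb (fun x y : κ → Fin 8 => hammingDist x y) aH := by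
  refine ⟨fun x k => hh_pm _ _, fun x y => ?_, fun p => ?_, fun p q ne => ?_⟩
  · rw [Fintype.sum_prod_type]
    simp only [aH, hh_s7, hammingDist, card_filter]
    push_cast
    rw [mul_sum]
    exact sum_congr rfl fun b _ => by by_cases e : x b = y b <;> simp [e]
  · obtain ⟨t, ht⟩ := hh_t1 p.2
    refine flip0 _ (sh_inv (Function.update 0 p.1 t)) _ fun v => ?_
    rw [aH_sh]; simp [aH, ht]
  · obtain ⟨b, k⟩ := p
    obtain ⟨c, j⟩ := q
    have : ∃ t : κ → Fin 8, aH t (b, k) * aH t (c, j) = -1 := by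
      by_cases e : b = c
      · subst e
        obtain ⟨t, ht⟩ := hh_t2 k j (fun e => ne (by rw [e]))
        exact ⟨Function.update 0 b t, by simp [aH, ht]⟩
      · obtain ⟨t, ht⟩ := hh_t1 k
        exact ⟨Function.update 0 b t, by simp [aH, ht, Function.update_of_ne (Ne.symm e), hh_zero]⟩
    obtain ⟨t, ht⟩ := this
    refine flip0 _ (sh_inv t) _ fun v => ?_
    rw [aH_sh, aH_sh]
    linear_combination (aH v (b, k) * aH v (c, j)) * ht

lemma hupd {x y : κ → Fin 8} {b : κ} (h : y b ≠ x b) :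
    hammingDist (Function.update y b (x b)) y = 1 ∧
      hammingDist x (Function.update y b (x b)) + 1 = hammingDist x y := by
  constructor
  · rw [hammingDist, card_eq_one]
    refine ⟨b, ?_⟩
    ext i
    by_cases e : i = b
    · subst e; simp [h.symm]
    · simp [e]
  · rw [hammingDist, hammingDist, ← card_insert_of_notMem (a := b) (by simp)]
    congr 1
    ext i
    by_cases e : i = b
    · subst e; simp [h.symm]
    · simp [e]

lemma certH : Cert (gph fun x y : κ → Fin 8 => hammingDist x y) (fun x y => hammingDist x y) :=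
  embH.cert fun x y ne => by
    obtain ⟨b, hb⟩ := Function.ne_iff.1 ne
    exact ⟨_, hupd hb⟩

lemma adjH {x y : κ → Fin 8} (h : (gph fun x y : κ → Fin 8 => hammingDist x y).Adj x y) :
    ∃ b, ∀ i, i ≠ b → x i = y i := by
  have e : hammingDist x y = 1 := by
    rcases ((fromRel_adj _ _ _).1 h).2 with e | e
    · exact e
    · rw [hammingDist_comm]; exact e
  obtain ⟨b, hb⟩ := card_eq_one.1 e
  refine ⟨b, fun i hi => ?_⟩
  by_contra k
  have : i ∈ ({b} : Finset κ) := hb ▸ by simpa using k
  exact hi (mem_singleton.1 this)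

lemma twoH {x y : κ → Fin 8} (ne : x ≠ y)
    (na : ¬ (gph fun x y : κ → Fin 8 => hammingDist x y).Adj x y) :
    ∃ u w, ∀ z, (gph fun x y : κ → Fin 8 => hammingDist x y).Adj x z →
      (gph fun x y : κ → Fin 8 => hammingDist x y).Adj y z → z = u ∨ z = w := by
  have h0 : hammingDist x y ≠ 0 := fun e => ne (hammingDist_eq_zero.1 e)
  have h1 : hammingDist x y ≠ 1 := fun e => na ((fromRel_adj _ _ _).2 ⟨ne, Or.inl e⟩)
  obtain ⟨p, hp, q, hq, pq⟩ := one_lt_card.1 (show 1 < hammingDist x y by omega)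
  simp only [mem_filter, mem_univ, true_and] at hp hq
  refine ⟨Function.update x p (y p), Function.update x q (y q), fun z a1 a2 => ?_⟩
  obtain ⟨b, hb⟩ := adjH a1
  obtain ⟨c, hc⟩ := adjH a2
  have k1 := hb p
  have k2 := hb q
  have k3 := hc p
  have k4 := hc q
  by_cases e : p = b
  · left
    subst e
    ext i
    by_cases f : i = p
    · subst f; simp only [Function.update_self]; grind
    · simp [f, hb i f]
  · right
    have : q = b := by grind
    subst this
    ext i
    by_cases f : i = q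
    · subst f; simp only [Function.update_self]; grind
    · simp [f, hb i f]

end

def dC (x y : Fin 8 × Bool) : ℕ := if x.1 = y.1 then (if x.2 = y.2 then 0 else 2) else 1
def aC (x : Fin 8 × Bool) (k : Fin 8) : ℤ := (if x.2 then -1 else 1) * hh x.1 k

lemma embC : Emb dC aC := ⟨by decide +kernel, by decide +kernel, by decide +kernel, by decide +kernel⟩
lemma certC : Cert (gph dC) dC := embC.cert (by decide +kernel)

def sg (c : Fin 8) : Bool := c.val % 2 == 1
def FF (s : Fin 4 → Bool) : ℤ :=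
  if (s 0 && !s 1 && s 2) || (s 0 && !s 1 && s 3) || (!s 0 && s 1 && !s 2) || (!s 0 && s 1 && !s 3)
    || (s 0 && s 1 && !s 2 && s 3) || (!s 0 && !s 1 && s 2 && !s 3) then -1 else 1

lemma FF_pm (s : Fin 4 → Bool) : FF s ∈ [(1 : ℤ), -1] := by unfold FF; split_ifs <;> simp
lemma FF_fl : ∀ r : Fin 2, ∀ s : Fin 4 → Bool,
    FF (fun p => if p.val % 2 = r.val then !s p else s p) = - FF s := by decide +kernel
lemma FF_ex : ∀ s t : Fin 4 → Bool, FF s = FF t → s ≠ t →
    ∃ p, t p ≠ s p ∧ FF (Function.update t p (s p)) = FF t := by decide +kernel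
lemma sg_xo : ∀ c, sg (xo c 1) = !sg c := by decide +kernel

abbrev Bs := Fin 8 × Fin 4 → Fin 8

def eps (i : Fin 8) (v : Bs) : ℤ := FF fun p => sg (v (i, p))
def tf (i : Fin 8) (r : Fin 2) : Bs := fun b => if b.1 = i ∧ b.2.val % 2 = r.val then 1 else 0

lemma eps_sh (i : Fin 8) (r : Fin 2) (v : Bs) : eps i (sh (tf i r) v) = - eps i v := by
  rw [eps, eps, ← FF_fl r]
  congr 1
  ext p
  by_cases e : p.val % 2 = r.val <;> simp [sh, tf, e, sg_xo, xo_zero]

def dW (x y : Bs × Fin 8) : ℕ :=
  hammingDist x.1 y.1 + if x.2 = y.2 then (if eps x.2 x.1 = eps y.2 y.1 then 0 else 2) else 1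
def aW (x : Bs × Fin 8) (k : ((Fin 8 × Fin 4) × Fin 7) ⊕ Fin 8) : ℤ :=
  Sum.elim (aH x.1) (fun k => eps x.2 x.1 * hh x.2 k) k

lemma eps_sq (i : Fin 8) (v : Bs) : eps i v * eps i v = 1 := by
  have := FF_pm fun p => sg (v (i, p))
  simp only [List.mem_cons, List.not_mem_nil, or_false] at this
  rcases this with e | e <;> simp [eps, e]

lemma eps1 (i : Fin 8) : ∑ v, eps i v = 0 := flip0 _ (sh_inv (tf i 0)) _ (eps_sh i 0)

lemma eps2 (i : Fin 8) (p : (Fin 8 × Fin 4) × Fin 7) : ∑ v, aH v p * eps i v = 0 := by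
  refine flip0 _ (sh_inv (tf i (Fin.ofNat 2 (p.1.2.val + 1)))) _ fun v => ?_
  have : tf i (Fin.ofNat 2 (p.1.2.val + 1)) p.1 = 0 := by
    simp only [tf, Fin.val_ofNat]
    rw [if_neg (by omega)]
  rw [eps_sh, aH_sh, aH, aH, this, hh_zero]
  ring

lemma embW : Emb dW aW := by
  refine ⟨?_, fun x y => ?_, ?_, ?_⟩
  · rintro x (k | k)
    · exact hh_pm _ _
    · have := FF_pm fun p => sg (x.1 (x.2, p))
      simp only [List.mem_cons, List.not_mem_nil, or_false] at this
      rcases this with e | e <;> rcases hh_pm x.2 k with f | f <;> simp [aW, eps, e, f]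
  · rw [Fintype.sum_sum_type]
    simp only [aW, Sum.elim_inl, Sum.elim_inr, ← embH.ds]
    rw [hh_s8 x.2 y.2 (eps x.2 x.1) (FF_pm _) (eps y.2 y.1) (FF_pm _), dW]
    push_cast; ring
  · rintro (k | k)
    · rw [Fintype.sum_prod_type_right]; simp [aW, embH.m1]
    · rw [Fintype.sum_prod_type_right]; simp [aW, ← sum_mul, eps1]
  · rintro (k | k) (j | j) ne
    · rw [Fintype.sum_prod_type_right]
      simp [aW, embH.m2 k j (fun e => ne (congrArg _ e))]
    · rw [Fintype.sum_prod_type_right]
      simp [aW, ← mul_assoc, ← sum_mul, eps2]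
    · rw [Fintype.sum_prod_type_right]
      have : ∀ (i : Fin 8) (v : Bs), eps i v * hh i k * aH v j = aH v j * eps i v * hh i k :=
        fun i v => by ring
      simp [aW, this, ← sum_mul, eps2]
    · rw [Fintype.sum_prod_type]
      have : ∀ (i : Fin 8) (v : Bs), eps i v * hh i k * (eps i v * hh i j) = hh i k * hh i j :=
        fun i v => by linear_combination (hh i k * hh i j) * eps_sq i v
      simp only [aW, Sum.elim_inr, this, hh_o k j (fun e => ne (congrArg _ e)), sum_const_zero]

lemma eps_upd (j : Fin 8) (v : Bs) (b : Fin 8 × Fin 4) (c : Fin 8) (h : b.1 ≠ j ∨ sg c = sg (v b)) :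
    eps j (Function.update v b c) = eps j v := by
  unfold eps
  congr 1
  ext p
  by_cases e : (j, p) = b
  · subst e
    rcases h with h | h
    · exact absurd rfl h
    · simp [h]
  · simp [e]

lemma certW : Cert (gph dW) dW := by
  refine embW.cert ?_
  rintro ⟨v, i⟩ ⟨w, j⟩ ne
  by_cases ij : i = j
  · subst ij
    by_cases e : eps i v = eps i w
    · have : ∃ b, w b ≠ v b ∧ eps i (Function.update w b (v b)) = eps i w := by
        by_cases s : (fun p => sg (v (i, p))) = fun p => sg (w (i, p))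
        · obtain ⟨b, hb⟩ := Function.ne_iff.1 (show w ≠ v from fun e => ne (by rw [e]))
          refine ⟨b, hb, eps_upd _ _ _ _ ?_⟩
          by_cases f : b.1 = i
          · right
            subst f
            exact congrFun s b.2
          · exact Or.inl f
        · obtain ⟨p, h1, h2⟩ := FF_ex _ _ e s
          refine ⟨(i, p), fun f => h1 (by rw [f]), ?_⟩
          rw [eps, eps, ← h2]
          congr 1
          ext q
          by_cases f : q = p
          · subst f; simp
          · simp [f]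
      obtain ⟨b, h1, h2⟩ := this
      obtain ⟨k1, k2⟩ := hupd h1
      exact ⟨(Function.update w b (v b), i), by simp [dW, k1, h2], by simp [dW, h2, e, k2]⟩
    · obtain ⟨k, hk⟩ := exists_ne i
      exact ⟨(w, k), by simp [dW, hk], by simp [dW, hk.symm, e]⟩
  · by_cases o : ∃ b : Fin 8 × Fin 4, b.1 ≠ j ∧ w b ≠ v b
    · obtain ⟨b, h0, h1⟩ := o
      obtain ⟨k1, k2⟩ := hupd h1
      have h2 := eps_upd j w b (v b) (Or.inl h0)
      exact ⟨(Function.update w b (v b), j), by simp [dW, k1, h2], by simp [dW, ij, k2]⟩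
    · push Not at o
      have e : eps i v = eps i w := by
        unfold eps
        congr 1
        ext p
        rw [o (i, p) ij]
      exact ⟨(w, i), by simp [dW, ij], by simp [dW, ij, e]⟩

abbrev VC := Fin 8 × Bool
abbrev VW := Bs × Fin 8
abbrev VG := VC × VC × VC × VW × VW × VW × VW

def GG : SimpleGraph VG :=
  gph dC □ (gph dC □ (gph dC □ (gph dW □ (gph dW □ (gph dW □ gph dW)))))

lemma conG : GG.Connected :=
  ⟨fun u v => ((certC.prod (certC.prod (certC.prod (certW.prod (certW.prod
    (certW.prod certW)))))).dist u v).1⟩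

lemma cardV : Fintype.card VG = Fintype.card (Fin 136 → Fin 8) := by
  simp only [Fintype.card_prod, Fintype.card_fun, Fintype.card_fin, Fintype.card_bool]
  norm_num

noncomputable instance decVG : DecidableEq VG := Classical.decEq _

set_option synthInstance.maxSize 10000 in
lemma cospG : (distMat GG).charpoly =
    (distMat (gph fun x y : Fin 136 → Fin 8 => hammingDist x y)).charpoly :=
  cosp (embC.prod (embC.prod (embC.prod (embW.prod (embW.prod (embW.prod embW))))))
    (certC.prod (certC.prod (certC.prod (certW.prod (certW.prod (certW.prod certW))))))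
    embH certH cardV (by simp only [Fintype.card_prod, Fintype.card_sum, Fintype.card_fin])

lemma noIso : IsEmpty (GG ≃g gph fun x y : Fin 136 → Fin 8 => hammingDist x y) := by
  refine ⟨fun φ => ?_⟩
  obtain ⟨r⟩ : Nonempty (VC × VC × VW × VW × VW × VW) := inferInstance
  have ad : ∀ a b : VC, a.1 ≠ b.1 → GG.Adj (a, r) (b, r) := fun a b h =>
    boxProd_adj.2 (Or.inl ⟨(fromRel_adj _ _ _).2 ⟨fun e => h (congrArg Prod.fst e),
      Or.inl (by simp [dC, h])⟩, rfl⟩)
  have na : ¬ GG.Adj ((0, false), r) ((0, true), r) := fun h => by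
    rcases boxProd_adj.1 h with ⟨h1, -⟩ | ⟨h1, -⟩
    · have := ((fromRel_adj _ _ _).1 h1).2
      simp [dC] at this
    · exact h1.ne rfl
  obtain ⟨u, w, h⟩ := twoH (x := φ ((0, false), r)) (y := φ ((0, true), r))
    (fun e => by simpa using φ.injective e) (fun h => na (φ.map_adj_iff.1 h))
  have k : ∀ c : Fin 8, c ≠ 0 → φ ((c, false), r) = u ∨ φ ((c, false), r) = w := fun c hc =>
    h _ (φ.map_adj_iff.2 (ad _ _ hc.symm)) (φ.map_adj_iff.2 (ad _ _ hc.symm))
  have n : ∀ c d : Fin 8, c ≠ d → φ ((c, false), r) ≠ φ ((d, false), r) := fun c d cd e =>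
    cd (by simpa using φ.injective e)
  have k1 := k 1 (by decide)
  have k2 := k 2 (by decide)
  have k3 := k 3 (by decide)
  have n1 := n 1 2 (by decide)
  have n2 := n 1 3 (by decide)
  have n3 := n 2 3 (by decide)
  grind

lemma main : ∃ (V : Type) (_ : Fintype V) (_ : DecidableEq V) (G : SimpleGraph V), G.Connected ∧
    (distMat G).charpoly = (distMat (gph fun x y : Fin 136 → Fin 8 => hammingDist x y)).charpoly ∧
    IsEmpty (G ≃g gph fun x y : Fin 136 → Fin 8 => hammingDist x y) :=
  ⟨VG, _, _, GG, conG, cospG, noIso⟩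

end Pool.Agent.H.MP_c36447_co
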